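import Pool.Agent.W450.RigFam
import Pool.Agent.W450.RigGreen
import Pool.Agent.W450.RigNS
import Pool.Agent.W450.RigConn
import Pool.Agent.W495.Family
import Pool.Agent.W881.GamEmb
import Pool.Agent.W881.GamConn

/-!
# A gendo-symmetric algebra with `o_k = ∞` for every `k`

Negative answer to Q2 of MP_b2fb47_al, over every field of characteristic zero.

Let `A` be any finite-dimensional algebra, `B` the algebra of upper triangular 2 by 2 matrices
over `A`, `T = B + D(B)` the trivial extension of `B` (a symmetric algebra) and
`Γ = End_T(T + B)` (a gendo-symmetric algebra).  Then `A` is a quotient of `Γ` in such a way that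
restriction along `Γ → A` preserves the vanishing of all `Ext^n`, `n ≥ 1`, between finitely
generated modules (a homological embedding).  Applied to the algebra `A` of the answer to Q1 this
gives the result.
-/

set_option autoImplicit false

namespace Pool.Agent.Results.MP_b2fb47_al.GendoSymUnbounded

open CategoryTheory CategoryTheory.Abelian W450.Rig W881.GS

universe u

/-- Over every field `K` of characteristic zero there is a finite-dimensional, connected,
non-semisimple, gendo-symmetric `K`-algebra `Γ` with `o_k(Γ) = ∞` for every `k ≥ 1`; indeed `Γ` has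
finitely generated right modules `M` with `Ext^i(M, M) = 0` for all `i ≥ 1` and with arbitrarily
many pairwise non-isomorphic indecomposable direct summands. -/
theorem result (K : Type u) [Field K] [CharZero K] :
    ∃ (Γ : Type u) (_ : Ring Γ) (_ : Algebra K Γ),
      Module.Finite K Γ ∧ IsConnectedRing Γ ∧ ¬ IsSemisimpleRing Γ ∧ IsGendoSymmetric K Γ ∧
      (∀ k : ℕ, 1 ≤ k → oSize Γ k = ⊤) ∧
      (∀ N : ℕ, ∃ M : ModuleCat.{u} Γᵐᵒᵖ, Module.Finite Γᵐᵒᵖ M ∧
        (∀ i : ℕ, 1 ≤ i → Subsingleton (Ext M M i)) ∧ (N : ℕ∞) ≤ size M) := by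
  have hX : IsOrthFamily (Xfam K) := orth_family K (fun m n => green_irr K m n)
  have hc : IsConnectedRing (T2 (Alg K)) := t2_connected (alg_connected K)
  have hn : Nontrivial (T2 (Alg K)) := hc.1
  have hf : Module.Finite K (Alg K) := alg_finite K
  obtain ⟨h1, h2⟩ := unbounded_of_family (Gam K (T2 (Alg K)))
    (fun n => ModuleCat.of (Gam K (T2 (Alg K)))ᵐᵒᵖ (Rs (rho K (Alg K)) (Xfam K n)))
    (orth_embed (K := K) (A := Alg K) hX)
  exact ⟨Gam K (T2 (Alg K)), inferInstance, inferInstance, inferInstance, gam_connected hc,
    gam_not_semisimple, gam_gendo hc, fun k _ => h2 k, h1⟩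

end Pool.Agent.Results.MP_b2fb47_al.GendoSymUnbounded
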