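import Pool.Agent.W450.RigFam
import Pool.Agent.W450.RigGreen
import Pool.Agent.W450.RigNS
import Pool.Agent.W450.RigConn
import Pool.Agent.W495.Family

/-!
# A finite-dimensional algebra with `o_k(A) = ∞` for every `k`

Negative answer to Q1 of MP_b2fb47_al, over every field of characteristic zero.

The algebra has dimension `120` and six simple modules.  Every representation `V` of `sl₂` gives an
`A`-module whose projective resolution is written down explicitly (`Pool.Agent.W450.RigRes`);
the complex computing `Ext(V^, V'^)` is the Chevalley-Eilenberg complex of `sl₂` with coefficients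
in `Hom(V, V')`, modified by a periodicity map which kills the classes in degrees `0` and `3`.
Hence `Ext^i(V^, V'^) = 0` for all `i ≥ 1` and all finite-dimensional `V`, `V'`, and the
irreducible representations give an infinite family of pairwise (and self) orthogonal bricks.
-/

set_option autoImplicit false

namespace Pool.Agent.Results.MP_b2fb47_al.RigidUnbounded

open CategoryTheory CategoryTheory.Abelian W450.Rig

universe u

/-- Over every field `K` of characteristic zero there is a finite-dimensional, connected,
non-semisimple `K`-algebra `A` with `o_k(A) = ∞` for every `k ≥ 1`; indeed `A` has finitely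
generated right modules `M` with `Ext^i(M, M) = 0` for all `i ≥ 1` and with arbitrarily many
pairwise non-isomorphic indecomposable direct summands. -/
theorem result (K : Type u) [Field K] [CharZero K] :
    ∃ (A : Type u) (_ : Ring A) (_ : Algebra K A),
      Module.Finite K A ∧ IsConnectedRing A ∧ ¬ IsSemisimpleRing A ∧
      (∀ k : ℕ, 1 ≤ k → oSize A k = ⊤) ∧
      (∀ N : ℕ, ∃ M : ModuleCat.{u} Aᵐᵒᵖ, Module.Finite Aᵐᵒᵖ M ∧
        (∀ i : ℕ, 1 ≤ i → Subsingleton (Ext M M i)) ∧ (N : ℕ∞) ≤ size M) := by
  have hX : IsOrthFamily (Xfam K) := orth_family K (fun m n => green_irr K m n)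
  obtain ⟨h1, h2⟩ := unbounded_of_family (Alg K) (Xfam K) hX
  exact ⟨Alg K, inferInstance, inferInstance, alg_finite K, alg_connected K,
    alg_not_semisimple K, fun k _ => h2 k, h1⟩

end Pool.Agent.Results.MP_b2fb47_al.RigidUnbounded
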